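import Mathlib

set_option autoImplicit false

/-! Measures with `(n-1)`-dimensional growth at the points of bounded averages. -/

open MeasureTheory Filter Topology Set Metric
open scoped ENNReal NNReal ContDiff

namespace Pool.Agent.X187.JA

theorem growth {F : ℝ → ℝ} (hF0 : ∀ r, 0 ≤ F r) (hmono : Monotone F) {A r2 : ℝ} (hr2 : 0 < r2)
    (m : ℕ) (h : ∀ r, 0 < r → r ≤ r2 → F (r / 2) ≤ A * r ^ m + (1 / 2) ^ (m + 1) * F r) :
    ∃ C, ∀ r, 0 < r → r ≤ r2 → F r ≤ C * r ^ m := by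
  set C : ℝ := max (F r2 / (r2 / 2) ^ m) (2 ^ (m + 1) * A) with hC
  have hC1 : F r2 / (r2 / 2) ^ m ≤ C := le_max_left _ _
  have hC2 : 2 ^ (m + 1) * A ≤ C := le_max_right _ _
  have hC0 : 0 ≤ C := le_trans (div_nonneg (hF0 _) (by positivity)) hC1
  have key : ∀ k : ℕ, ∀ r, r2 / 2 ^ (k + 1) < r → r ≤ r2 / 2 ^ k → F r ≤ C * r ^ m := by
    intro k
    induction k with
    | zero =>
      intro r h1 h2
      simp only [zero_add, pow_one, pow_zero, div_one] at h1 h2
      have h3 : F r2 ≤ C * (r2 / 2) ^ m := by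
        rwa [div_le_iff₀ (by positivity)] at hC1
      have h4 : (r2 / 2) ^ m ≤ r ^ m := pow_le_pow_left₀ (by positivity) h1.le m
      calc F r ≤ F r2 := hmono h2
        _ ≤ C * (r2 / 2) ^ m := h3
        _ ≤ C * r ^ m := mul_le_mul_of_nonneg_left h4 hC0
    | succ k ih =>
      intro r h1 h2
      have hr0 : 0 < r := lt_of_le_of_lt (by positivity) h1
      have e1 : r2 / 2 ^ (k + 1) < 2 * r := by
        rw [pow_succ (2 : ℝ) (k + 1), ← div_div] at h1
        linarith
      have e2 : 2 * r ≤ r2 / 2 ^ k := by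
        rw [pow_succ (2 : ℝ) k, ← div_div] at h2
        linarith
      have e3 := ih (2 * r) e1 e2
      have e4 : 2 * r ≤ r2 := e2.trans (div_le_self hr2.le (one_le_pow₀ (by norm_num)))
      have e5 := h (2 * r) (by positivity) e4
      rw [show 2 * r / 2 = r by ring] at e5
      have e6 : (1 / 2 : ℝ) ^ (m + 1) * F (2 * r) ≤ (1 / 2) ^ (m + 1) * (C * (2 * r) ^ m) :=
        mul_le_mul_of_nonneg_left e3 (by positivity)
      have e7 : (1 / 2 : ℝ) ^ (m + 1) * (C * (2 * r) ^ m) = C / 2 * r ^ m := by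
        rw [mul_pow, pow_succ, one_div, inv_pow]
        field_simp
      have e8 : A * (2 * r) ^ m = (2 ^ (m + 1) * A) / 2 * r ^ m := by
        rw [mul_pow, pow_succ]
        ring
      have e9 : (2 ^ (m + 1) * A) / 2 * r ^ m ≤ C / 2 * r ^ m :=
        mul_le_mul_of_nonneg_right (by linarith) (by positivity)
      calc F r ≤ A * (2 * r) ^ m + (1 / 2) ^ (m + 1) * F (2 * r) := e5
        _ ≤ C / 2 * r ^ m + C / 2 * r ^ m := by rw [e8]; linarith
        _ = C * r ^ m := by ring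
  refine ⟨C, fun r h1 h2 => ?_⟩
  have hex : ∃ k : ℕ, r2 / 2 ^ (k + 1) < r := by
    obtain ⟨k, hk⟩ := pow_unbounded_of_one_lt (r2 / r) (show (1 : ℝ) < 2 by norm_num)
    refine ⟨k, ?_⟩
    rw [div_lt_iff₀ (by positivity)]
    rw [div_lt_iff₀ h1] at hk
    have : (2 : ℝ) ^ k ≤ 2 ^ (k + 1) := pow_le_pow_right₀ (by norm_num) (Nat.le_succ k)
    nlinarith
  classical
  set k := Nat.find hex with hk
  refine key k r (Nat.find_spec hex) ?_
  rcases Nat.eq_zero_or_pos k with h3 | h3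
  · rw [h3, pow_zero, div_one]
    exact h2
  · have := Nat.find_min hex (show k - 1 < k by omega)
    rw [Nat.sub_add_cancel h3] at this
    exact not_lt.1 this

section

variable {E : Type*} [NormedAddCommGroup E] [MeasurableSpace E] [BorelSpace E]

theorem null_of_growth {μ : Measure E} [IsFiniteMeasure μ] {m : ℕ} (hm : 0 < m) {A : Set E}
    (hA : μH[(m : ℝ)] A = 0) (h : ∀ x ∈ A, ∃ C r0 : ℝ, 0 < r0 ∧ ∀ r, 0 < r → r ≤ r0 →
      μ.real (closedBall x r) ≤ C * r ^ m) : μ A = 0 := by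
  set B : ℕ → Set E := fun k => {x ∈ A | ∀ r : ℝ, 0 < r → r ≤ 1 / ((k : ℝ) + 1) →
    μ.real (closedBall x r) ≤ k * r ^ m} with hB
  have hcov : A ⊆ ⋃ k, B k := by
    intro x hx
    obtain ⟨C, r0, hr0, hC⟩ := h x hx
    obtain ⟨k1, hk1⟩ := exists_nat_ge C
    obtain ⟨k2, hk2⟩ := exists_nat_one_div_lt hr0
    rw [mem_iUnion]
    refine ⟨max k1 k2, hx, fun r hr1 hr2 => ?_⟩
    have h1 : (k1 : ℝ) ≤ (max k1 k2 : ℕ) := by exact_mod_cast le_max_left k1 k2
    have h2 : (k2 : ℝ) ≤ (max k1 k2 : ℕ) := by exact_mod_cast le_max_right k1 k2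
    have h3 : 1 / (((max k1 k2 : ℕ) : ℝ) + 1) ≤ 1 / ((k2 : ℝ) + 1) :=
      one_div_le_one_div_of_le (by positivity) (by linarith)
    have h4 := hC r hr1 (hr2.trans (h3.trans hk2.le))
    refine h4.trans (mul_le_mul_of_nonneg_right (hk1.trans h1) (by positivity))
  refine measure_mono_null hcov (measure_iUnion_null fun k => ?_)
  have hBA : μH[(m : ℝ)] (B k) = 0 := measure_mono_null (fun x hx => hx.1) hA
  -- bound on small sets
  have hsmall : ∀ t : Set E, ediam t ≤ ENNReal.ofReal (1 / ((k : ℝ) + 1)) →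
      μ (t ∩ B k) ≤ (k : ℝ≥0∞) * ⨆ _ : t.Nonempty, ediam t ^ (m : ℝ) := by
    intro t ht
    rcases (t ∩ B k).eq_empty_or_nonempty with h0 | ⟨x, hxt, hxB⟩
    · rw [h0, measure_empty]
      exact zero_le
    have hne : t.Nonempty := ⟨x, hxt⟩
    rw [iSup_pos hne]
    have hfin : ediam t ≠ ⊤ := ne_top_of_le_ne_top ENNReal.ofReal_ne_top ht
    have hsub : t ⊆ closedBall x (ediam t).toReal := by
      intro y hy
      rw [mem_closedBall, dist_edist]
      exact ENNReal.toReal_mono hfin (edist_le_ediam_of_mem hy hxt)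
    have hd : (ediam t).toReal ≤ 1 / ((k : ℝ) + 1) := by
      have := ENNReal.toReal_mono ENNReal.ofReal_ne_top ht
      rwa [ENNReal.toReal_ofReal (by positivity)] at this
    rcases (ENNReal.toReal_nonneg (a := ediam t)).eq_or_lt with h0 | h0
    · -- a point
      have h1 : t ⊆ {x} := by
        rw [← h0, closedBall_zero] at hsub
        exact hsub
      have h2 : μ.real {x} ≤ 0 := by
        have h3 : Tendsto (fun r : ℝ => (k : ℝ) * r ^ m) (𝓝[>] 0) (𝓝 0) := by
          have : Tendsto (fun r : ℝ => (k : ℝ) * r ^ m) (𝓝 0) (𝓝 ((k : ℝ) * 0 ^ m)) := by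
            apply Continuous.tendsto
            fun_prop
          rw [zero_pow hm.ne', mul_zero] at this
          exact this.mono_left nhdsWithin_le_nhds
        refine ge_of_tendsto h3 ?_
        have h4 : ∀ᶠ r : ℝ in 𝓝[>] 0, r ∈ Ioc (0 : ℝ) (1 / ((k : ℝ) + 1)) :=
          Ioc_mem_nhdsGT (by positivity)
        filter_upwards [h4] with r hr
        refine le_trans ?_ (hxB.2 r hr.1 hr.2)
        exact measureReal_mono (by simp [hr.1.le]) (measure_ne_top _ _)
      have h5 : μ {x} = 0 := by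
        have h6 : μ.real {x} = 0 := le_antisymm h2 measureReal_nonneg
        rwa [measureReal_eq_zero_iff] at h6
      rw [measure_mono_null (inter_subset_left.trans h1) h5]
      exact zero_le
    · have h1 := hxB.2 (ediam t).toReal h0 hd
      calc μ (t ∩ B k) ≤ μ (closedBall x (ediam t).toReal) :=
            measure_mono (inter_subset_left.trans hsub)
        _ = ENNReal.ofReal (μ.real (closedBall x (ediam t).toReal)) := by
            rw [ofReal_measureReal]
        _ ≤ ENNReal.ofReal (k * (ediam t).toReal ^ m) := ENNReal.ofReal_le_ofReal h1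
        _ = (k : ℝ≥0∞) * ediam t ^ (m : ℝ) := by
            rw [ENNReal.ofReal_mul (Nat.cast_nonneg k), ENNReal.ofReal_natCast,
              ENNReal.ofReal_pow ENNReal.toReal_nonneg, ENNReal.ofReal_toReal hfin,
              ENNReal.rpow_natCast]
  -- conclusion
  have hle : ∀ η : ℝ≥0∞, 0 < η → μ (B k) ≤ k * η := by
    intro η hη
    have h1 : (⨅ (t : ℕ → Set E) (_ : B k ⊆ ⋃ n, t n)
        (_ : ∀ n, ediam (t n) ≤ ENNReal.ofReal (1 / ((k : ℝ) + 1))),
          ∑' n, ⨆ _ : (t n).Nonempty, ediam (t n) ^ (m : ℝ)) < η := by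
      refine lt_of_le_of_lt ?_ hη
      rw [← hBA, Measure.hausdorffMeasure_apply]
      exact le_iSup₂ (f := fun (r : ℝ≥0∞) (_ : 0 < r) => ⨅ (t : ℕ → Set E) (_ : B k ⊆ ⋃ n, t n)
        (_ : ∀ n, ediam (t n) ≤ r), ∑' n, ⨆ _ : (t n).Nonempty, ediam (t n) ^ (m : ℝ))
        (ENNReal.ofReal (1 / ((k : ℝ) + 1))) (by
          rw [ENNReal.ofReal_pos]
          positivity)
    simp only [iInf_lt_iff] at h1
    obtain ⟨t, ht1, ht2, ht3⟩ := h1
    calc μ (B k) ≤ μ (⋃ n, t n ∩ B k) := by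
          apply measure_mono
          rw [← iUnion_inter]
          exact fun x hx => ⟨ht1 hx, hx⟩
      _ ≤ ∑' n, μ (t n ∩ B k) := measure_iUnion_le _
      _ ≤ ∑' n, (k : ℝ≥0∞) * ⨆ _ : (t n).Nonempty, ediam (t n) ^ (m : ℝ) :=
          ENNReal.tsum_le_tsum fun n => hsmall (t n) (ht2 n)
      _ = k * ∑' n, ⨆ _ : (t n).Nonempty, ediam (t n) ^ (m : ℝ) := ENNReal.tsum_mul_left
      _ ≤ k * η := mul_le_mul_right ht3.le _
  have h2 : Tendsto (fun j : ℕ => (k : ℝ≥0∞) * (2⁻¹ : ℝ≥0∞) ^ j) atTop (𝓝 (k * 0)) :=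
    ENNReal.Tendsto.const_mul (ENNReal.tendsto_pow_atTop_nhds_zero_of_lt_one (by norm_num))
      (Or.inr (ENNReal.natCast_ne_top k))
  rw [mul_zero] at h2
  exact le_antisymm (ge_of_tendsto' h2 fun j => hle _ (ENNReal.pow_pos (by norm_num) j)) zero_le

end

end Pool.Agent.X187.JA
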