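import Pool.Agent.X187.JA.Growth

set_option autoImplicit false

/-! The local estimate at a point of bounded averages. -/

open MeasureTheory Filter Topology Set Metric
open scoped ENNReal NNReal ContDiff

namespace Pool.Agent.X187.JA

variable {E : Type*} [NormedAddCommGroup E] [InnerProductSpace ℝ E] [FiniteDimensional ℝ E]
  [MeasurableSpace E] [BorelSpace E]
  {V W : Type*} [NormedAddCommGroup V] [NormedAddCommGroup W] [NormedSpace ℝ W] [CompleteSpace W]

omit [MeasurableSpace E] [BorelSpace E] in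
/-- cut-off functions -/
theorem cutoff : ∃ K : ℝ, 0 ≤ K ∧ ∀ (x : E) (r : ℝ), 0 < r → ∃ φ : E → ℝ, ContDiff ℝ ∞ φ ∧
    HasCompactSupport φ ∧ tsupport φ ⊆ closedBall x r ∧ (∀ y, 0 ≤ φ y) ∧ (∀ y, φ y ≤ 1) ∧
    (∀ y ∈ closedBall x (r / 2), φ y = 1) ∧ ∀ y, ‖fderiv ℝ φ y‖ ≤ K / r := by
  let ψ : ContDiffBump (0 : E) := ⟨1 / 2, 1, by norm_num, by norm_num⟩
  have hψ : ContDiff ℝ ∞ ψ := ψ.contDiff
  obtain ⟨K, hK⟩ := (hψ.continuous_fderiv (by simp)).bounded_above_of_compact_support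
    (ψ.hasCompactSupport.fderiv ℝ)
  have hK0 : 0 ≤ K := (norm_nonneg _).trans (hK 0)
  refine ⟨K, hK0, fun x r hr => ?_⟩
  set φ : E → ℝ := fun y => ψ (r⁻¹ • (y - x)) with hφ
  have hsub : Function.support φ ⊆ ball x r := by
    intro y hy
    have h1 : r⁻¹ • (y - x) ∈ Function.support ψ := hy
    rw [ψ.support_eq, mem_ball_zero_iff, norm_smul, norm_inv, Real.norm_of_nonneg hr.le] at h1
    rw [mem_ball_iff_norm]
    have h2 : r⁻¹ * ‖y - x‖ < 1 := h1
    rwa [inv_mul_lt_iff₀ hr, mul_one] at h2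
  have hts : tsupport φ ⊆ closedBall x r :=
    closure_minimal (hsub.trans ball_subset_closedBall) isClosed_closedBall
  refine ⟨φ, hψ.comp (by fun_prop), ?_, hts, fun y => ψ.nonneg, fun y => ψ.le_one,
    fun y hy => ?_, fun y => ?_⟩
  · exact (isCompact_closedBall x r).of_isClosed_subset (isClosed_tsupport φ) hts
  · apply ψ.one_of_mem_closedBall
    rw [mem_closedBall_zero_iff, norm_smul, norm_inv, Real.norm_of_nonneg hr.le]
    rw [mem_closedBall_iff_norm] at hy
    show r⁻¹ * ‖y - x‖ ≤ 1 / 2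
    rw [inv_mul_le_iff₀ hr]
    linarith
  · have hg : HasFDerivAt (fun y => r⁻¹ • (y - x)) (r⁻¹ • ContinuousLinearMap.id ℝ E) y :=
      ((hasFDerivAt_id y).sub_const x).const_smul r⁻¹
    have h1 : HasFDerivAt φ ((fderiv ℝ ψ (r⁻¹ • (y - x))).comp
        (r⁻¹ • ContinuousLinearMap.id ℝ E)) y :=
      ((hψ.differentiable (by simp)) _).hasFDerivAt.comp y hg
    rw [h1.fderiv]
    refine (ContinuousLinearMap.opNorm_comp_le _ _).trans ?_
    rw [div_eq_mul_inv]
    refine mul_le_mul (hK _) ?_ (norm_nonneg _) hK0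
    rw [norm_smul, norm_inv, Real.norm_of_nonneg hr.le]
    exact mul_le_of_le_one_right (by positivity) ContinuousLinearMap.norm_id_le

theorem local_growth {Ω : Set E} (hΩ : IsOpen Ω) {u : E → V} (hu : IntegrableOn u Ω)
    {μ : Measure E} [IsFiniteMeasure μ] {g : E → W} (hg : Integrable g μ) {K1 : ℝ}
    (hK1 : 0 ≤ K1)
    (hrep : ∀ φ : E → ℝ, ContDiff ℝ ∞ φ → HasCompactSupport φ → tsupport φ ⊆ Ω →
      ‖∫ y, φ y • g y ∂μ‖ ≤ K1 * ∫ y in Ω, ‖fderiv ℝ φ y‖ * ‖u y‖)
    {x : E} (hx : x ∈ Ω) (hgx : ‖g x‖ = 1)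
    (hleb : Tendsto (fun r => ⨍ y in closedBall x r, ‖g y - g x‖ ∂μ) (𝓝[>] 0) (𝓝 0))
    {m : ℕ} {C0 r0 : ℝ} (hr0 : 0 < r0)
    (hbd : ∀ r, 0 < r → r ≤ r0 → ∫ y in closedBall x r, ‖u y‖ ≤ C0 * r ^ (m + 1)) :
    ∃ C r1 : ℝ, 0 < r1 ∧ ∀ r, 0 < r → r ≤ r1 → μ.real (closedBall x r) ≤ C * r ^ m := by
  obtain ⟨K, hK0, hcut⟩ := cutoff (E := E)
  obtain ⟨rΩ, hrΩ0, hrΩ⟩ := Metric.nhds_basis_closedBall.mem_iff.1 (hΩ.mem_nhds hx)
  have hδ : (0 : ℝ) < (1 / 2) ^ (m + 1) := by positivity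
  obtain ⟨rL, hrL0, hrL⟩ : ∃ rL : ℝ, 0 < rL ∧ ∀ r, 0 < r → r ≤ rL →
      ⨍ y in closedBall x r, ‖g y - g x‖ ∂μ < (1 / 2) ^ (m + 1) := by
    have h1 := hleb.eventually (gt_mem_nhds hδ)
    rw [Filter.Eventually, mem_nhdsGT_iff_exists_Ioc_subset] at h1
    obtain ⟨rL, h2, h3⟩ := h1
    exact ⟨rL, h2, fun r hr1 hr2 => h3 ⟨hr1, hr2⟩⟩
  set r1 : ℝ := min r0 (min rΩ rL) with hr1
  have hr1pos : 0 < r1 := lt_min hr0 (lt_min hrΩ0 hrL0)
  have hmono : Monotone fun r => μ.real (closedBall x r) := fun a b hab =>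
    measureReal_mono (closedBall_subset_closedBall hab) (measure_ne_top _ _)
  have hstep : ∀ r, 0 < r → r ≤ r1 → μ.real (closedBall x (r / 2)) ≤
      K1 * K * C0 * r ^ m + (1 / 2) ^ (m + 1) * μ.real (closedBall x r) := by
    intro r hr hrr
    have hr_0 : r ≤ r0 := hrr.trans (min_le_left _ _)
    have hr_Ω : closedBall x r ⊆ Ω :=
      (closedBall_subset_closedBall (hrr.trans ((min_le_right _ _).trans (min_le_left _ _)))).trans hrΩ
    have hr_L : r ≤ rL := hrr.trans ((min_le_right _ _).trans (min_le_right _ _))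
    obtain ⟨φ, hφ1, hφ2, hφ3, hφ4, hφ5, hφ6, hφ7⟩ := hcut x r hr
    have hφi : Integrable φ μ := hφ1.continuous.integrable_of_hasCompactSupport hφ2
    have hgi : Integrable (fun y => ‖g y - g x‖) μ := (hg.sub (integrable_const _)).norm
    have hvan : ∀ y, y ∉ closedBall x r → φ y = 0 := fun y hy =>
      image_eq_zero_of_notMem_tsupport fun h => hy (hφ3 h)
    -- lower bound by the measure of the small ball
    have e1 : μ.real (closedBall x (r / 2)) ≤ ∫ y, φ y ∂μ := by
      have h1 : ∫ y, (closedBall x (r / 2)).indicator (fun _ => (1 : ℝ)) y ∂μ =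
          μ.real (closedBall x (r / 2)) := by
        rw [integral_indicator measurableSet_closedBall]
        simp
      rw [← h1]
      refine integral_mono ((integrable_const _).indicator measurableSet_closedBall) hφi
        fun y => ?_
      by_cases hy : y ∈ closedBall x (r / 2)
      · simp only [indicator_of_mem hy, hφ6 y hy, le_refl]
      · simp only [indicator_of_notMem hy]
        exact hφ4 y
    -- the polar vector
    have hi1 : Integrable (fun y => φ y • g x) μ := hφi.smul_const _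
    have hφg : Integrable (fun y => φ y • g y) μ :=
      hg.bdd_smul 1 hφ1.continuous.aestronglyMeasurable (ae_of_all _ fun y => by
        rw [Real.norm_of_nonneg (hφ4 y)]
        exact hφ5 y)
    have e2 : (∫ y, φ y ∂μ) • g x = ∫ y, φ y • g y ∂μ - ∫ y, φ y • (g y - g x) ∂μ := by
      have h1 : ∫ y, φ y • (g y - g x) ∂μ = ∫ y, φ y • g y ∂μ - ∫ y, φ y • g x ∂μ := by
        rw [← integral_sub hφg hi1]
        exact integral_congr_ae (ae_of_all _ fun y => smul_sub _ _ _)
      rw [h1, integral_smul_const]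
      abel
    have e3 : ∫ y, φ y ∂μ ≤ ‖∫ y, φ y • g y ∂μ‖ + ‖∫ y, φ y • (g y - g x) ∂μ‖ := by
      have h0 : 0 ≤ ∫ y, φ y ∂μ := integral_nonneg hφ4
      have h1 : ‖(∫ y, φ y ∂μ) • g x‖ = ∫ y, φ y ∂μ := by
        rw [norm_smul, hgx, mul_one, Real.norm_of_nonneg h0]
      rw [← h1, e2]
      exact norm_sub_le _ _
    have e4 : ‖∫ y, φ y • (g y - g x) ∂μ‖ ≤ (1 / 2) ^ (m + 1) * μ.real (closedBall x r) := by
      have h1 : ‖∫ y, φ y • (g y - g x) ∂μ‖ ≤ ∫ y in closedBall x r, ‖g y - g x‖ ∂μ := by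
        rw [← integral_indicator measurableSet_closedBall]
        refine norm_integral_le_of_norm_le (hgi.indicator measurableSet_closedBall)
          (ae_of_all _ fun y => ?_)
        by_cases hy : y ∈ closedBall x r
        · rw [indicator_of_mem hy, norm_smul, Real.norm_of_nonneg (hφ4 y)]
          exact mul_le_of_le_one_left (norm_nonneg _) (hφ5 y)
        · rw [indicator_of_notMem hy, hvan y hy, zero_smul, norm_zero]
      refine h1.trans ?_
      have h2 := hrL r hr hr_L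
      rw [setAverage_eq, smul_eq_mul] at h2
      rcases (measureReal_nonneg (μ := μ) (s := closedBall x r)).eq_or_lt with h3 | h3
      · have h4 : μ (closedBall x r) = 0 := by
          rw [← measureReal_eq_zero_iff]
          exact h3.symm
        rw [Measure.restrict_eq_zero.2 h4, integral_zero_measure]
        positivity
      · rw [inv_mul_lt_iff₀ h3] at h2
        linarith
    have e5 : ‖∫ y, φ y • g y ∂μ‖ ≤ K1 * K * C0 * r ^ m := by
      refine (hrep φ hφ1 hφ2 (hφ3.trans hr_Ω)).trans ?_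
      have h1 : ∫ y in Ω, ‖fderiv ℝ φ y‖ * ‖u y‖ ≤ K / r * (C0 * r ^ (m + 1)) := by
        have h2 : ∫ y in Ω, ‖fderiv ℝ φ y‖ * ‖u y‖ =
            ∫ y in closedBall x r, ‖fderiv ℝ φ y‖ * ‖u y‖ := by
          refine setIntegral_eq_of_subset_of_forall_sdiff_eq_zero hΩ.measurableSet hr_Ω fun y hy => ?_
          have h3 : fderiv ℝ φ y = 0 := by
            apply image_eq_zero_of_notMem_tsupport
            intro h4
            exact hy.2 (hφ3 (tsupport_fderiv_subset ℝ h4))
          rw [h3, norm_zero, zero_mul]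
        rw [h2]
        have h5 : ∫ y in closedBall x r, ‖fderiv ℝ φ y‖ * ‖u y‖ ≤
            ∫ y in closedBall x r, K / r * ‖u y‖ := by
          refine integral_mono_of_nonneg (ae_of_all _ fun y => by positivity)
            (((hu.mono_set hr_Ω).norm).const_mul _) (ae_of_all _ fun y => ?_)
          exact mul_le_mul_of_nonneg_right (hφ7 y) (norm_nonneg _)
        refine h5.trans ?_
        rw [integral_const_mul]
        exact mul_le_mul_of_nonneg_left (hbd r hr hr_0) (by positivity)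
      refine (mul_le_mul_of_nonneg_left h1 hK1).trans (le_of_eq ?_)
      rw [pow_succ]
      field_simp
    linarith
  obtain ⟨C, hC⟩ := growth (fun r => measureReal_nonneg) hmono hr1pos m hstep
  exact ⟨C, r1, hr1pos, hC⟩

end Pool.Agent.X187.JA
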